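import Mathlib.RingTheory.Flat.TorsionFree
import Mathlib.RingTheory.PicardGroup
import Mathlib.Analysis.Complex.Exponential
import Mathlib.Algebra.Order.Star.Real
import Mathlib.Analysis.CStarAlgebra.Classes
import Mathlib.RingTheory.SimpleRing.Principal
import Mathlib.RingTheory.TotallySplit
import Mathlib.RingTheory.Etale.Weakly
import Mathlib.RingTheory.Henselian
import Mathlib.RingTheory.RegularLocalRing.Defs
import Mathlib.Tactic.Polynomial.Basic

/-!
Zero-free region for the characteristic polynomial of a represented matroid whose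
representing matrix has rows of bounded weight.
-/

set_option autoImplicit false

namespace Pool.Agent.MP_e19463_co

open Module Submodule

variable {F : Type*} [Field F] {V : Type*} [Fintype V] {ι : Type*} [DecidableEq ι]

/-- The signed rank generating sum relative to a subspace `W`. -/
noncomputable def Phi (z : ℂ) (c : ι → (V → F)) (E : Finset ι) (W : Submodule F (V → F)) : ℂ :=
  ∑ X ∈ E.powerset, (-1 : ℂ) ^ X.card * z ^ (finrank F ↥(W ⊔ span F (c '' (X : Set ι))))

omit [Fintype V] in
lemma Phi_insert (z : ℂ) (c : ι → (V → F)) (E : Finset ι) (e : ι) (he : e ∉ E)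
    (W : Submodule F (V → F)) :
    Phi z c (insert e E) W = Phi z c E W - Phi z c E (W ⊔ span F {c e}) := by
  unfold Phi
  rw [Finset.sum_powerset_insert he, sub_eq_add_neg, ← Finset.sum_neg_distrib]
  congr 1
  apply Finset.sum_congr rfl
  intro X hX
  have heX : e ∉ X := fun h => he (Finset.mem_powerset.1 hX h)
  rw [Finset.card_insert_of_notMem heX, Finset.coe_insert, Set.image_insert_eq,
    Submodule.span_insert, ← sup_assoc, pow_succ]
  ring

lemma finrank_sup_span_singleton' (W : Submodule F (V → F)) (y : V → F) (hy : y ∉ W) :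
    finrank F ↥(W ⊔ span F {y}) = finrank F W + 1 :=
  Submodule.finrank_sup_span_singleton hy

/-- Adding columns one at a time. -/
lemma add_cols (z : ℂ) (c : ι → (V → F)) (E : Finset ι) (P : Submodule F (V → F) → Prop)
    (hP : ∀ W W', P W → W ≤ W' → P W') (K r : ℝ) (hK : 0 ≤ K) (hr : 0 ≤ r)
    (h : ∀ W, P W → ‖Phi z c E W‖ ≤ K * r ^ finrank F W) (T : Finset ι) :
    Disjoint T E → ∀ W, P W → ‖Phi z c (T ∪ E) W‖ ≤ K * r ^ finrank F W * (1 + r) ^ T.card := by
  induction T using Finset.induction_on with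
  | empty =>
    intro _ W hW
    simpa using h W hW
  | insert e T heT ih =>
    intro hd W hW
    have hd' : Disjoint T E := Finset.disjoint_of_subset_left (Finset.subset_insert _ _) hd
    have heE : e ∉ E := Finset.disjoint_left.1 hd (Finset.mem_insert_self _ _)
    have he : e ∉ T ∪ E := by simp [heT, heE]
    rw [Finset.insert_union, Phi_insert z c _ e he, Finset.card_insert_of_notMem heT]
    by_cases hy : c e ∈ W
    · have : W ⊔ span F {c e} = W := by
        apply sup_eq_left.2
        rwa [Submodule.span_singleton_le_iff_mem]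
      rw [this, sub_self, norm_zero]
      positivity
    · have h1 := ih hd' W hW
      have h2 := ih hd' (W ⊔ span F {c e}) (hP _ _ hW le_sup_left)
      rw [finrank_sup_span_singleton' W _ hy] at h2
      calc _ ≤ ‖Phi z c (T ∪ E) W‖ + ‖Phi z c (T ∪ E) (W ⊔ span F {c e})‖ := norm_sub_le _ _
        _ ≤ _ := add_le_add h1 h2
        _ = _ := by ring

/-- The effect of adding non-zero columns on the sum relative to the zero subspace. -/
lemma add_cols_bot (z : ℂ) (c : ι → (V → F)) (E : Finset ι) (K r : ℝ) (hK : 0 ≤ K) (hr : 0 ≤ r)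
    (h : ∀ W, ‖Phi z c E W‖ ≤ K * r ^ finrank F W) (T : Finset ι) :
    Disjoint T E → (∀ e ∈ T, c e ≠ 0) →
      ‖Phi z c (T ∪ E) ⊥ - Phi z c E ⊥‖ ≤ K * ((1 + r) ^ T.card - 1) := by
  induction T using Finset.induction_on with
  | empty =>
    intro _ _
    simp
  | insert e T heT ih =>
    intro hd hne
    have hd' : Disjoint T E := Finset.disjoint_of_subset_left (Finset.subset_insert _ _) hd
    have heE : e ∉ E := Finset.disjoint_left.1 hd (Finset.mem_insert_self _ _)
    have he : e ∉ T ∪ E := by simp [heT, heE]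
    rw [Finset.insert_union, Phi_insert z c _ e he, Finset.card_insert_of_notMem heT]
    have h1 := ih hd' (fun x hx => hne x (Finset.mem_insert_of_mem hx))
    have h2 := add_cols z c E (fun _ => True) (fun _ _ _ _ => trivial) K r hK hr
      (fun W _ => h W) T hd' (⊥ ⊔ span F {c e}) trivial
    have hy : c e ∉ (⊥ : Submodule F (V → F)) := by
      simpa using hne e (Finset.mem_insert_self _ _)
    rw [finrank_sup_span_singleton' _ _ hy, finrank_bot] at h2
    calc _ = ‖(Phi z c (T ∪ E) ⊥ - Phi z c E ⊥) - Phi z c (T ∪ E) (⊥ ⊔ span F {c e})‖ := by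
          congr 1; ring
      _ ≤ _ := norm_sub_le _ _
      _ ≤ _ := add_le_add h1 h2
      _ = _ := by ring

/-- The coordinate hyperplane of `v`. -/
def hyp (v : V) : Submodule F (V → F) := LinearMap.ker (LinearMap.proj v : (V → F) →ₗ[F] F)

omit [Fintype V] in
lemma mem_hyp (v : V) (x : V → F) : x ∈ (hyp v : Submodule F (V → F)) ↔ x v = 0 := by
  simp [hyp]

lemma finrank_inf_hyp (v : V) (N : Submodule F (V → F)) (hN : ∃ w ∈ N, w v ≠ 0) :
    finrank F N = finrank F ↥(N ⊓ hyp v) + 1 := by
  obtain ⟨w, hw, hwv⟩ := hN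
  have hnot : w ∉ N ⊓ hyp v := by
    intro h
    exact hwv ((mem_hyp v w).1 h.2)
  have heq : N = (N ⊓ hyp v) ⊔ span F {w} := by
    apply le_antisymm
    · intro x hx
      rw [Submodule.mem_sup]
      refine ⟨x - (x v / w v) • w, ⟨N.sub_mem hx (N.smul_mem _ hw), ?_⟩, (x v / w v) • w,
        Submodule.smul_mem _ _ (Submodule.mem_span_singleton_self w), by simp⟩
      apply (mem_hyp v _).2
      simp only [Pi.sub_apply, Pi.smul_apply, smul_eq_mul]
      field_simp
      ring
    · apply sup_le inf_le_left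
      rwa [Submodule.span_singleton_le_iff_mem]
  rw [← finrank_sup_span_singleton' _ _ hnot, ← heq]

omit [DecidableEq ι] in
/-- Pivoting on a coordinate that no column uses. -/
lemma Phi_pivot (z : ℂ) (c : ι → (V → F)) (E : Finset ι) (v : V) (hE : ∀ e ∈ E, c e v = 0)
    (W : Submodule F (V → F)) (hW : ∃ w ∈ W, w v ≠ 0) :
    Phi z c E W = z * Phi z c E (W ⊓ hyp v) := by
  unfold Phi
  rw [Finset.mul_sum]
  apply Finset.sum_congr rfl
  intro X hX
  have hS : span F (c '' (X : Set ι)) ≤ hyp v := by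
    rw [Submodule.span_le]
    rintro _ ⟨e, he, rfl⟩
    exact (mem_hyp v _).2 (hE e (Finset.mem_powerset.1 hX he))
  have h1 : finrank F ↥(W ⊔ span F (c '' (X : Set ι))) =
      finrank F ↥((W ⊔ span F (c '' (X : Set ι))) ⊓ hyp v) + 1 := by
    apply finrank_inf_hyp
    obtain ⟨w, hw, hwv⟩ := hW
    exact ⟨w, Submodule.mem_sup_left hw, hwv⟩
  have h2 : (W ⊔ span F (c '' (X : Set ι))) ⊓ hyp v = (W ⊓ hyp v) ⊔ span F (c '' (X : Set ι)) := by
    rw [sup_comm W, sup_inf_assoc_of_le _ hS, sup_comm]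
  rw [h1, h2, pow_succ]
  ring

open Classical in
/-- The columns using coordinate `v`. -/
noncomputable def star (c : ι → (V → F)) (E : Finset ι) (v : V) : Finset ι :=
  E.filter (fun e => c e v ≠ 0)

lemma one_add_pow_le (r : ℝ) (hr : 0 ≤ r) (k t : ℕ) (ht : t ≤ k) (hk : k * r ≤ 1 / 4) :
    (1 + r) ^ t ≤ 4 / 3 := by
  have h1 : (1 + r) ^ t ≤ (1 + r) ^ k := pow_le_pow_right₀ (by linarith) ht
  have h2 : (1 + r) ^ k ≤ Real.exp r ^ k :=
    pow_le_pow_left₀ (by linarith) (by linarith [Real.add_one_le_exp r]) k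
  rw [← Real.exp_nat_mul] at h2
  have h3 : Real.exp (k * r) ≤ Real.exp (1 / 4) := Real.exp_le_exp.2 hk
  have h4 : Real.exp (1 / 4) ≤ 1 / (1 - 1 / 4) :=
    Real.exp_bound_div_one_sub_of_interval (by norm_num) (by norm_num)
  norm_num at h4
  linarith

/-- Main estimate. -/
theorem main_bound (z : ℂ) (c : ι → (V → F)) (k : ℕ) (hz : k * (2 * ‖z‖) ≤ 1 / 4)
    (E : Finset ι) :
    (∀ e ∈ E, c e ≠ 0) → (∀ v, (star c E v).card ≤ k) →
      Phi z c E ⊥ ≠ 0 ∧ ∀ W, ‖Phi z c E W‖ ≤ ‖Phi z c E ⊥‖ * (2 * ‖z‖) ^ finrank F W := by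
  classical
  induction E using Finset.strongInduction with
  | H E ih =>
  intro hne hdeg
  have hr : 0 ≤ 2 * ‖z‖ := by positivity
  -- the step for a vertex with non-empty star
  have key : ∀ v, (star c E v).Nonempty →
      Phi z c (E \ star c E v) ⊥ ≠ 0 ∧
      (2 / 3) * ‖Phi z c (E \ star c E v) ⊥‖ ≤ ‖Phi z c E ⊥‖ ∧
      ∀ W : Submodule F (V → F), (∃ w ∈ W, w v ≠ 0) →
        ‖Phi z c E W‖ ≤ (2 / 3) * ‖Phi z c (E \ star c E v) ⊥‖ * (2 * ‖z‖) ^ finrank F W := by
    intro v hv
    have hsub : star c E v ⊆ E := Finset.filter_subset _ _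
    have hss : E \ star c E v ⊂ E := Finset.sdiff_ssubset hsub hv
    have hdeg' : ∀ u, (star c (E \ star c E v) u).card ≤ k := by
      intro u
      refine le_trans (Finset.card_le_card ?_) (hdeg u)
      exact Finset.filter_subset_filter _ Finset.sdiff_subset
    obtain ⟨h0, hb⟩ := ih _ hss (fun e he => hne e (Finset.sdiff_subset he)) hdeg'
    have hun : star c E v ∪ (E \ star c E v) = E := Finset.union_sdiff_of_subset hsub
    have hdis : Disjoint (star c E v) (E \ star c E v) := Finset.disjoint_sdiff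
    have hx : (1 + 2 * ‖z‖) ^ (star c E v).card ≤ 4 / 3 := one_add_pow_le _ hr k _ (hdeg v) hz
    have hK : 0 ≤ ‖Phi z c (E \ star c E v) ⊥‖ := norm_nonneg _
    refine ⟨h0, ?_, ?_⟩
    · have h1 := add_cols_bot z c (E \ star c E v) _ _ hK hr hb (star c E v) hdis
        (fun e he => hne e (hsub he))
      rw [hun] at h1
      have h2 : ‖Phi z c (E \ star c E v) ⊥‖ - ‖Phi z c E ⊥‖ ≤
          ‖Phi z c E ⊥ - Phi z c (E \ star c E v) ⊥‖ := by
        rw [norm_sub_rev]; exact norm_sub_norm_le _ _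
      nlinarith
    · intro W hW
      have hzero : ∀ e ∈ E \ star c E v, c e v = 0 := by
        intro e he
        rw [Finset.mem_sdiff] at he
        by_contra hc
        exact he.2 (Finset.mem_filter.2 ⟨he.1, hc⟩)
      have h1 := add_cols z c (E \ star c E v) (fun W => ∃ w ∈ W, w v ≠ 0)
        (fun W W' ⟨w, hw, hwv⟩ hle => ⟨w, hle hw, hwv⟩)
        (‖Phi z c (E \ star c E v) ⊥‖ / 2) (2 * ‖z‖) (by positivity) hr
        (by
          intro W' hW'
          rw [Phi_pivot z c _ v hzero W' hW', norm_mul, finrank_inf_hyp v W' hW', pow_succ]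
          have := hb (W' ⊓ hyp v)
          calc _ ≤ ‖z‖ * (‖Phi z c (E \ star c E v) ⊥‖ * (2 * ‖z‖) ^ finrank F ↥(W' ⊓ hyp v)) :=
                mul_le_mul_of_nonneg_left this (norm_nonneg _)
            _ = _ := by ring)
        (star c E v) hdis W hW
      rw [hun] at h1
      refine le_trans h1 ?_
      have h3 : 0 ≤ ‖Phi z c (E \ star c E v) ⊥‖ / 2 * (2 * ‖z‖) ^ finrank F W := by positivity
      calc _ ≤ ‖Phi z c (E \ star c E v) ⊥‖ / 2 * (2 * ‖z‖) ^ finrank F W * (4 / 3) :=
            mul_le_mul_of_nonneg_left hx h3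
        _ = _ := by ring
  constructor
  · rcases E.eq_empty_or_nonempty with rfl | ⟨e, he⟩
    · simp [Phi]
    · obtain ⟨v, hv⟩ : ∃ v, c e v ≠ 0 := Function.ne_iff.1 (hne e he)
      obtain ⟨h0, h1, -⟩ := key v ⟨e, Finset.mem_filter.2 ⟨he, hv⟩⟩
      have : 0 < ‖Phi z c (E \ star c E v) ⊥‖ := norm_pos_iff.2 h0
      exact norm_pos_iff.1 (by linarith)
  · intro W
    induction hn : finrank F W generalizing W with
    | zero =>
      have : W = ⊥ := Submodule.finrank_eq_zero.1 hn
      subst this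
      simp
    | succ n ihn =>
      have hWne : W ≠ ⊥ := by
        rintro rfl
        simp at hn
      obtain ⟨w, hw, hw0⟩ := (Submodule.ne_bot_iff W).1 hWne
      obtain ⟨v, hv⟩ : ∃ v, w v ≠ 0 := Function.ne_iff.1 hw0
      have hW : ∃ w ∈ W, w v ≠ 0 := ⟨w, hw, hv⟩
      rcases (star c E v).eq_empty_or_nonempty with hs | hs
      · have hzero : ∀ e ∈ E, c e v = 0 := by
          intro e he
          by_contra hc
          have : e ∈ star c E v := Finset.mem_filter.2 ⟨he, hc⟩
          rw [hs] at this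
          simp at this
        have hd := finrank_inf_hyp v W hW
        rw [hn] at hd
        have := ihn (W ⊓ hyp v) (by omega)
        rw [Phi_pivot z c E v hzero W hW, norm_mul, pow_succ]
        have h5 : 0 ≤ ‖Phi z c E ⊥‖ * (2 * ‖z‖) ^ n := by positivity
        have h6 := norm_nonneg z
        calc _ ≤ ‖z‖ * (‖Phi z c E ⊥‖ * (2 * ‖z‖) ^ n) := mul_le_mul_of_nonneg_left this h6
          _ ≤ (2 * ‖z‖) * (‖Phi z c E ⊥‖ * (2 * ‖z‖) ^ n) :=
              mul_le_mul_of_nonneg_right (by linarith) h5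
          _ = _ := by ring
      · obtain ⟨-, h1, h2⟩ := key v hs
        have := h2 W hW
        rw [hn] at this
        exact le_trans this (mul_le_mul_of_nonneg_right h1 (by positivity))

end Pool.Agent.MP_e19463_co
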